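import Pool.Agent.L7h49.WN.Def

set_option autoImplicit false

noncomputable section

namespace Pool.Agent.L7h57.WN

open Pool.Agent.L7h49.WN MeasureTheory intervalIntegral

theorem sqrt_pos' (t : ℝ) : 0 < √(1 + t ^ 2) := Real.sqrt_pos.2 (by positivity)

theorem sl_cont : Continuous sl := by
  unfold sl
  exact continuous_id.div (by fun_prop) fun t => (sqrt_pos' t).ne'

theorem F_cont (w : ℝ) : Continuous (F w) := by
  unfold F
  exact (sl_cont.comp (by fun_prop : Continuous fun v : ℝ => v / 2)).min continuous_const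

theorem sl_mono {s t : ℝ} (hs : 0 ≤ s) (h : s ≤ t) : sl s ≤ sl t := by
  unfold sl
  rw [div_le_div_iff₀ (sqrt_pos' s) (sqrt_pos' t)]
  have ht : 0 ≤ t := hs.trans h
  have e1 : s * √(1 + t ^ 2) = √(s ^ 2 * (1 + t ^ 2)) := by
    rw [Real.sqrt_mul (sq_nonneg s), Real.sqrt_sq hs]
  have e2 : t * √(1 + s ^ 2) = √(t ^ 2 * (1 + s ^ 2)) := by
    rw [Real.sqrt_mul (sq_nonneg t), Real.sqrt_sq ht]
  rw [e1, e2]
  apply Real.sqrt_le_sqrt
  nlinarith [mul_self_nonneg (t - s), mul_nonneg hs (sub_nonneg.2 h), mul_nonneg ht (sub_nonneg.2 h)]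

theorem sl_nonneg {s : ℝ} (hs : 0 ≤ s) : 0 ≤ sl s := div_nonneg hs (sqrt_pos' s).le

theorem sl_half : sl (1 / 2) = 1 / √5 := by
  unfold sl
  have e : √(1 + (1 / 2 : ℝ) ^ 2) = √5 / 2 := by
    have : (1 + (1 / 2 : ℝ) ^ 2) = 5 / 2 ^ 2 := by norm_num
    rw [this, Real.sqrt_div (by norm_num), Real.sqrt_sq (by norm_num)]
  rw [e]
  have h5 : (0 : ℝ) < √5 := Real.sqrt_pos.2 (by norm_num)
  field_simp

theorem deriv_anti (x : ℝ) :
    HasDerivAt (fun v : ℝ => 2 * √(1 + (v / 2) ^ 2)) (sl (x / 2)) x := by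
  have h1 : HasDerivAt (fun v : ℝ => 1 + (v / 2) ^ 2) (2 * (x / 2) * (1 / 2)) x := by
    have h := ((hasDerivAt_id x).div_const 2).pow 2
    simpa using h.const_add 1
  have h2 := (h1.sqrt (by positivity)).const_mul 2
  have e : sl (x / 2) = 2 * (2 * (x / 2) * (1 / 2) / (2 * √(1 + (x / 2) ^ 2))) := by
    unfold sl
    have := (sqrt_pos' (x / 2)).ne'
    field_simp
  rw [e]
  exact h2

theorem int_sl (c : ℝ) : ∫ v in (0 : ℝ)..c, sl (v / 2) = 2 * √(1 + (c / 2) ^ 2) - 2 := by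
  rw [integral_eq_sub_of_hasDerivAt (fun x _ => deriv_anti x)
    ((sl_cont.comp (by fun_prop : Continuous fun v : ℝ => v / 2)).intervalIntegrable _ _)]
  norm_num

theorem J_small {w : ℝ} (h0 : 0 ≤ w) (h1 : w ≤ 1 / √5) : J w = 2 * √(1 - w ^ 2) + w - 2 := by
  have h5 : (0 : ℝ) < √5 := Real.sqrt_pos.2 (by norm_num)
  have hw5 : 5 * w ^ 2 ≤ 1 := by
    have h2 : w * √5 ≤ 1 := by
      rw [le_div_iff₀ h5] at h1
      exact h1
    have h3 : (w * √5) ^ 2 ≤ 1 := by
      have := mul_nonneg h0 h5.le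
      nlinarith
    rw [mul_pow, Real.sq_sqrt (by norm_num)] at h3
    linarith
  have hpos : 0 < 1 - w ^ 2 := by nlinarith [sq_nonneg w]
  set q : ℝ := √(1 - w ^ 2) with hq
  have hq0 : 0 < q := Real.sqrt_pos.2 hpos
  have hq2 : q ^ 2 = 1 - w ^ 2 := Real.sq_sqrt hpos.le
  set p : ℝ := w / q with hp
  have hp0 : 0 ≤ p := div_nonneg h0 hq0.le
  have hsq : √(1 + p ^ 2) = 1 / q := by
    have e : 1 + p ^ 2 = (1 / q) ^ 2 := by
      rw [hp, div_pow, div_pow, hq2]
      field_simp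
      ring
    rw [e, Real.sqrt_sq (by positivity)]
  have hslp : sl p = w := by
    unfold sl
    rw [hsq, hp]
    field_simp
  have hp1 : 2 * p ≤ 1 := by
    rw [hp, ← mul_div_assoc, div_le_one hq0]
    apply Real.le_sqrt_of_sq_le
    nlinarith
  unfold J
  have hi : ∀ a b : ℝ, IntervalIntegrable (F w) volume a b := fun a b =>
    (F_cont w).intervalIntegrable a b
  rw [← integral_add_adjacent_intervals (hi 0 (2 * p)) (hi (2 * p) 1)]
  have e1 : ∫ v in (0 : ℝ)..(2 * p), F w v = ∫ v in (0 : ℝ)..(2 * p), sl (v / 2) := by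
    apply integral_congr
    intro v hv
    rw [Set.uIcc_of_le (by linarith)] at hv
    apply min_eq_left
    rw [← hslp]
    exact sl_mono (by linarith [hv.1]) (by linarith [hv.2])
  have e2 : ∫ v in (2 * p)..1, F w v = ∫ v in (2 * p)..1, w := by
    apply integral_congr
    intro v hv
    rw [Set.uIcc_of_le hp1] at hv
    apply min_eq_right
    conv_lhs => rw [← hslp]
    exact sl_mono hp0 (by linarith [hv.1])
  rw [e1, e2, int_sl, intervalIntegral.integral_const, smul_eq_mul]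
  have e3 : 2 * p / 2 = p := by ring
  rw [e3, hsq, hp]
  have : q ≠ 0 := hq0.ne'
  field_simp
  nlinarith

theorem J_large {w : ℝ} (h1 : 1 / √5 ≤ w) : J w = √5 - 2 := by
  unfold J
  have e1 : ∫ v in (0 : ℝ)..1, F w v = ∫ v in (0 : ℝ)..1, sl (v / 2) := by
    apply integral_congr
    intro v hv
    rw [Set.uIcc_of_le (by norm_num)] at hv
    apply min_eq_left
    apply le_trans _ h1
    rw [← sl_half]
    exact sl_mono (by linarith [hv.1]) (by linarith [hv.2])
  rw [e1, int_sl]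
  have e : √(1 + (1 / 2 : ℝ) ^ 2) = √5 / 2 := by
    have : (1 + (1 / 2 : ℝ) ^ 2) = 5 / 2 ^ 2 := by norm_num
    rw [this, Real.sqrt_div (by norm_num), Real.sqrt_sq (by norm_num)]
  rw [e]
  ring

theorem J_le {w : ℝ} : J w ≤ w := by
  unfold J
  have h : ∫ v in (0 : ℝ)..1, F w v ≤ ∫ v in (0 : ℝ)..1, w :=
    integral_mono_on (by norm_num) ((F_cont w).intervalIntegrable _ _)
      (continuous_const.intervalIntegrable _ _) fun v _ => min_le_right _ _
  simpa using h

theorem J_nonneg {w : ℝ} (hw : 0 ≤ w) : 0 ≤ J w := by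
  unfold J
  apply intervalIntegral.integral_nonneg (by norm_num)
  intro v hv
  exact le_min (sl_nonneg (by linarith [hv.1])) hw

theorem s_INT : S_INT := by
  refine ⟨fun w h0 h1 => J_small h0 h1, fun w h0 h1 => ⟨?_, J_le, J_nonneg h0⟩⟩
  rcases le_total w (1 / √5) with h | h
  · rw [J_small h0 h]
  · rw [J_large h]
    have hs : 0 ≤ 1 - w ^ 2 := by nlinarith
    have hq2 : √(1 - w ^ 2) ^ 2 = 1 - w ^ 2 := Real.sq_sqrt hs
    have hq0 : 0 ≤ √(1 - w ^ 2) := Real.sqrt_nonneg _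
    have : 2 * √(1 - w ^ 2) + w ≤ √5 := by
      apply Real.le_sqrt_of_sq_le
      nlinarith [sq_nonneg (√(1 - w ^ 2) - 2 * w)]
    linarith

end Pool.Agent.L7h57.WN
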